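import Pool.Agent.H83.UE.Targets3

/-!
# MP_75a732_an, row CUT: cut-off functions near a finite set with small energy
-/

set_option autoImplicit false

open Polynomial MeasureTheory Filter Topology Set
open scoped OnePoint ComplexConjugate ComplexOrder Laplacian ENNReal Nat

open Pool.Agent.H83.UE

namespace Pool.Agent.H98.UDB

/-- the transition function -/
noncomputable def th (s : ℝ) : ℝ := Real.smoothTransition (2 - s)

theorem th_cd : ContDiff ℝ 1 th := by
  unfold th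
  exact Real.smoothTransition.contDiff.comp (contDiff_const.sub contDiff_id)

theorem th_range (s : ℝ) : 0 ≤ th s ∧ th s ≤ 1 :=
  ⟨Real.smoothTransition.nonneg _, Real.smoothTransition.le_one _⟩

theorem th_one {s : ℝ} (h : s ≤ 1) : th s = 1 :=
  Real.smoothTransition.one_of_one_le (by linarith)

theorem th_zero {s : ℝ} (h : 2 ≤ s) : th s = 0 :=
  Real.smoothTransition.zero_of_nonpos (by linarith)

theorem th_deriv : (∀ s, s < 1 → deriv th s = 0) ∧ (∀ s, 2 < s → deriv th s = 0) ∧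
    ∃ L : ℝ, 0 ≤ L ∧ ∀ s, |deriv th s| ≤ L := by
  have h1 : ∀ s, s < 1 → deriv th s = 0 := by
    intro s hs
    have : th =ᶠ[𝓝 s] fun _ => (1 : ℝ) := by
      filter_upwards [Iio_mem_nhds hs] with t ht using th_one (le_of_lt ht)
    rw [this.deriv_eq, deriv_const]
  have h2 : ∀ s, 2 < s → deriv th s = 0 := by
    intro s hs
    have : th =ᶠ[𝓝 s] fun _ => (0 : ℝ) := by
      filter_upwards [Ioi_mem_nhds hs] with t ht using th_zero (le_of_lt ht)
    rw [this.deriv_eq, deriv_const]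
  refine ⟨h1, h2, ?_⟩
  obtain ⟨L, hL⟩ := isCompact_Icc.exists_bound_of_continuousOn (s := Icc (1 : ℝ) 2)
    (th_cd.continuous_deriv le_rfl).continuousOn
  refine ⟨max L 0, le_max_right _ _, fun s => ?_⟩
  by_cases h3 : s < 1
  · rw [h1 s h3, abs_zero]
    exact le_max_right _ _
  · by_cases h4 : 2 < s
    · rw [h2 s h4, abs_zero]
      exact le_max_right _ _
    · exact (hL s ⟨not_lt.1 h3, not_lt.1 h4⟩).trans (le_max_left _ _)

/-- the regularised logarithm -/
noncomputable def ql (a : ℂ) (ρ : ℝ) (z : ℂ) : ℝ := Real.log (‖z - a‖ ^ 2 + ρ ^ 2) / 2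

theorem ql_exp (a : ℂ) {ρ : ℝ} (hρ : 0 < ρ) (z : ℂ) :
    Real.exp (2 * ql a ρ z) = ‖z - a‖ ^ 2 + ρ ^ 2 := by
  unfold ql
  rw [mul_div_cancel₀ _ (two_ne_zero), Real.exp_log (by positivity)]

theorem ql_cd (a : ℂ) {ρ : ℝ} (hρ : 0 < ρ) : ContDiff ℝ 1 (ql a ρ) := by
  unfold ql
  refine ContDiff.div_const ?_ _
  refine ContDiff.log ?_ fun z => by positivity
  exact ((contDiff_id.sub contDiff_const).norm_sq ℝ).add contDiff_const

theorem ql_fderiv (a : ℂ) {ρ : ℝ} (hρ : 0 < ρ) (z : ℂ) :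
    ‖fderiv ℝ (ql a ρ) z‖ ^ 2 ≤ Real.exp (-(2 * ql a ρ z)) := by
  have h0 : 0 < ‖z - a‖ ^ 2 + ρ ^ 2 := by positivity
  have h1 : HasFDerivAt (fun z : ℂ => z - a) (ContinuousLinearMap.id ℝ ℂ) z :=
    (hasFDerivAt_id z).sub_const a
  have h2 := ((h1.norm_sq).add_const (ρ ^ 2)).log h0.ne'
  have h3 := h2.const_mul (1 / 2 : ℝ)
  have h4 : ql a ρ = fun z : ℂ => (1 / 2 : ℝ) * Real.log (‖z - a‖ ^ 2 + ρ ^ 2) := by
    funext z
    unfold ql
    ring
  rw [Real.exp_neg, ql_exp a hρ z, h4, h3.fderiv, norm_smul, norm_smul]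
  obtain ⟨g, hg⟩ : ∃ g : ℂ →L[ℝ] ℝ, g = (innerSL ℝ (z - a)).comp (ContinuousLinearMap.id ℝ ℂ) :=
    ⟨_, rfl⟩
  have h5 : ‖g‖ ≤ ‖z - a‖ := by
    rw [hg, ContinuousLinearMap.comp_id, innerSL_apply_norm]
  have h5' : ‖2 • g‖ ≤ 2 * ‖z - a‖ := by
    rw [two_nsmul]
    exact (norm_add_le _ _).trans (by linarith)
  have h6 : ‖(1 / 2 : ℝ)‖ * (‖(‖z - a‖ ^ 2 + ρ ^ 2)⁻¹‖ * ‖2 • g‖) ≤
      (‖z - a‖ ^ 2 + ρ ^ 2)⁻¹ * ‖z - a‖ := by
    rw [Real.norm_of_nonneg (by norm_num : (0 : ℝ) ≤ 1 / 2),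
      Real.norm_of_nonneg (by positivity : (0 : ℝ) ≤ (‖z - a‖ ^ 2 + ρ ^ 2)⁻¹)]
    have : 0 ≤ (‖z - a‖ ^ 2 + ρ ^ 2)⁻¹ := by positivity
    nlinarith [mul_le_mul_of_nonneg_left h5' this]
  have h7 := pow_le_pow_left₀ (by positivity) h6 2
  rw [← hg]
  refine le_trans ?_ (h7.trans ?_)
  · rfl
  · rw [mul_pow, inv_pow, sq, mul_inv, mul_assoc]
    refine mul_le_of_le_one_right (by positivity) ?_
    rw [inv_mul_le_iff₀ h0, mul_one]
    nlinarith [sq_nonneg ρ]

/-- THE ENERGY OF A RADIAL CUT-OFF FUNCTION. -/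
theorem energy (a : ℂ) {ρ M L s1 : ℝ} (hρ : 0 < ρ) (hM : 1 ≤ M) (hL : 0 ≤ L) (Θ : ℝ → ℝ)
    (hΘ : ContDiff ℝ 1 Θ) (hΘL : ∀ s, |deriv Θ s| ≤ L)
    (hΘ0 : ∀ s, (s < s1 ∨ s1 + 1 < s) → deriv Θ s = 0) :
    ContDiff ℝ 1 (fun z => Θ (ql a ρ z / M)) ∧
    ∫⁻ z, ‖fderiv ℝ (fun z => Θ (ql a ρ z / M)) z‖ₑ ^ 2 ≤
      ENNReal.ofReal (3 * Real.pi * Real.exp 2 * L ^ 2 / M) := by
  have hM0 : 0 < M := by linarith
  have hcd : ContDiff ℝ 1 (fun z => ql a ρ z / M) := (ql_cd a hρ).div_const _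
  refine ⟨hΘ.comp hcd, ?_⟩
  -- the derivative
  have hfd : ∀ z, ‖fderiv ℝ (fun z => Θ (ql a ρ z / M)) z‖ =
      |deriv Θ (ql a ρ z / M)| * (‖fderiv ℝ (ql a ρ) z‖ / M) := by
    intro z
    have h1 : HasFDerivAt (ql a ρ) (fderiv ℝ (ql a ρ) z) z :=
      ((ql_cd a hρ).differentiable one_ne_zero z).hasFDerivAt
    have h2 : HasFDerivAt (fun z => ql a ρ z / M) (M⁻¹ • fderiv ℝ (ql a ρ) z) z := by
      have := h1.const_mul M⁻¹
      refine this.congr_of_eventuallyEq (Eventually.of_forall fun y => ?_)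
      change ql a ρ y / M = M⁻¹ * ql a ρ y
      rw [div_eq_inv_mul]
    have h3 : HasDerivAt Θ (deriv Θ (ql a ρ z / M)) (ql a ρ z / M) :=
      (hΘ.differentiable one_ne_zero _).hasDerivAt
    have h4 := h3.comp_hasFDerivAt z h2
    have h5 : fderiv ℝ (fun z => Θ (ql a ρ z / M)) z =
        deriv Θ (ql a ρ z / M) • (M⁻¹ • fderiv ℝ (ql a ρ) z) := h4.fderiv
    rw [h5, norm_smul, norm_smul, Real.norm_eq_abs, norm_inv, Real.norm_of_nonneg hM0.le,
      mul_comm M⁻¹, ← div_eq_mul_inv]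
  obtain ⟨K, hK⟩ : ∃ K : Finset ℤ, K = Finset.Icc ⌊s1 * M⌋ ⌊(s1 + 1) * M⌋ := ⟨_, rfl⟩
  have hKc : (K.card : ℝ) ≤ 3 * M := by
    rw [hK, Int.card_Icc]
    have h1 := Int.floor_le ((s1 + 1) * M)
    have h2 := Int.lt_floor_add_one (s1 * M)
    have h3 : (⌊s1 * M⌋ : ℤ) ≤ ⌊(s1 + 1) * M⌋ := Int.floor_le_floor (by nlinarith)
    have h4 : (((⌊(s1 + 1) * M⌋ + 1 - ⌊s1 * M⌋).toNat : ℕ) : ℝ) =
        ((⌊(s1 + 1) * M⌋ + 1 - ⌊s1 * M⌋ : ℤ) : ℝ) := by
      exact_mod_cast Int.toNat_of_nonneg (by omega)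
    rw [h4]
    push_cast
    nlinarith
  -- the pointwise bound
  have hpt : ∀ z, ‖fderiv ℝ (fun z => Θ (ql a ρ z / M)) z‖ₑ ^ 2 ≤
      ∑ k ∈ K, (Metric.ball a (Real.exp (k + 1))).indicator
        (fun _ => ENNReal.ofReal (L ^ 2 / M ^ 2 * Real.exp (-(2 * k)))) z := by
    intro z
    obtain ⟨q, hq⟩ : ∃ q, q = ql a ρ z := ⟨_, rfl⟩
    have h8 : ‖fderiv ℝ (fun z => Θ (ql a ρ z / M)) z‖ₑ ^ 2 =
        ENNReal.ofReal (‖fderiv ℝ (fun z => Θ (ql a ρ z / M)) z‖ ^ 2) := by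
      rw [ENNReal.ofReal_pow (norm_nonneg _), ofReal_norm]
    rw [h8]
    by_cases hs : q / M < s1 ∨ s1 + 1 < q / M
    · have h1 : ‖fderiv ℝ (fun z => Θ (ql a ρ z / M)) z‖ = 0 := by
        rw [hfd z, ← hq, hΘ0 _ hs, abs_zero, zero_mul]
      rw [h1, zero_pow two_ne_zero, ENNReal.ofReal_zero]
      exact zero_le
    · push Not at hs
      obtain ⟨hs1, hs2⟩ := hs
      rw [le_div_iff₀ hM0] at hs1
      rw [div_le_iff₀ hM0] at hs2
      have hkK : ⌊q⌋ ∈ K := by
        rw [hK, Finset.mem_Icc]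
        exact ⟨Int.floor_le_floor hs1, Int.floor_le_floor hs2⟩
      have hkl := Int.floor_le q
      have hku := Int.lt_floor_add_one q
      have hball : z ∈ Metric.ball a (Real.exp (⌊q⌋ + 1)) := by
        rw [Metric.mem_ball, dist_eq_norm]
        have h3 : ‖z - a‖ ^ 2 < Real.exp (⌊q⌋ + 1) ^ 2 := by
          rw [← Real.exp_nat_mul]
          calc ‖z - a‖ ^ 2 ≤ ‖z - a‖ ^ 2 + ρ ^ 2 := by nlinarith [sq_nonneg ρ]
            _ = Real.exp (2 * q) := by rw [hq, ql_exp a hρ z]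
            _ < Real.exp (((2 : ℕ) : ℝ) * (⌊q⌋ + 1)) := by
              apply Real.exp_lt_exp.2
              push_cast
              linarith
        exact lt_of_pow_lt_pow_left₀ 2 (Real.exp_pos _).le h3
      have h4 : ‖fderiv ℝ (fun z => Θ (ql a ρ z / M)) z‖ ^ 2 ≤
          L ^ 2 / M ^ 2 * Real.exp (-(2 * ⌊q⌋)) := by
        rw [hfd z, mul_pow, div_pow]
        have h5 := ql_fderiv a hρ z
        rw [← hq] at h5 ⊢
        have h6 : Real.exp (-(2 * q)) ≤ Real.exp (-(2 * (⌊q⌋ : ℝ))) := by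
          apply Real.exp_le_exp.2
          linarith
        have h7 : |deriv Θ (q / M)| ^ 2 ≤ L ^ 2 := pow_le_pow_left₀ (abs_nonneg _) (hΘL _) 2
        calc |deriv Θ (q / M)| ^ 2 * (‖fderiv ℝ (ql a ρ) z‖ ^ 2 / M ^ 2)
            ≤ L ^ 2 * (Real.exp (-(2 * (⌊q⌋ : ℝ))) / M ^ 2) := by
              apply mul_le_mul h7 _ (by positivity) (by positivity)
              exact div_le_div_of_nonneg_right (h5.trans h6) (by positivity)
          _ = L ^ 2 / M ^ 2 * Real.exp (-(2 * ⌊q⌋)) := by ring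
      refine (ENNReal.ofReal_le_ofReal h4).trans ?_
      have h9 := Finset.single_le_sum (f := fun k : ℤ =>
        (Metric.ball a (Real.exp (k + 1))).indicator
          (fun _ => ENNReal.ofReal (L ^ 2 / M ^ 2 * Real.exp (-(2 * k)))) z)
        (fun _ _ => zero_le) hkK
      refine le_trans (le_of_eq ?_) h9
      rw [Set.indicator_of_mem hball]
  calc ∫⁻ z, ‖fderiv ℝ (fun z => Θ (ql a ρ z / M)) z‖ₑ ^ 2
      ≤ ∫⁻ z, ∑ k ∈ K, (Metric.ball a (Real.exp (k + 1))).indicator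
        (fun _ => ENNReal.ofReal (L ^ 2 / M ^ 2 * Real.exp (-(2 * k)))) z := lintegral_mono hpt
    _ = ∑ k ∈ K, ∫⁻ z, (Metric.ball a (Real.exp (k + 1))).indicator
        (fun _ => ENNReal.ofReal (L ^ 2 / M ^ 2 * Real.exp (-(2 * k)))) z := by
        refine lintegral_finsetSum _ fun k _ => ?_
        exact measurable_const.indicator measurableSet_ball
    _ = ∑ k ∈ K, ENNReal.ofReal (L ^ 2 / M ^ 2 * Real.pi * Real.exp 2) := by
        refine Finset.sum_congr rfl fun k _ => ?_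
        rw [lintegral_indicator_const measurableSet_ball, Complex.volume_ball]
        have h1 : ((NNReal.pi : NNReal) : ℝ≥0∞) = ENNReal.ofReal Real.pi := by
          rw [ENNReal.ofReal, ← NNReal.coe_real_pi, Real.toNNReal_coe]
        rw [h1, ← ENNReal.ofReal_pow (Real.exp_pos _).le,
          ← ENNReal.ofReal_mul (by positivity), ← ENNReal.ofReal_mul (by positivity)]
        congr 1
        rw [← Real.exp_nat_mul]
        have h2 : Real.exp (((2 : ℕ) : ℝ) * (k + 1)) = Real.exp 2 * Real.exp (2 * k) := by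
          rw [← Real.exp_add]
          congr 1
          push_cast
          ring
        rw [h2]
        have h3 : Real.exp (-(2 * (k : ℝ))) * Real.exp (2 * k) = 1 := by
          rw [← Real.exp_add, neg_add_cancel, Real.exp_zero]
        calc L ^ 2 / M ^ 2 * Real.exp (-(2 * (k : ℝ))) *
            (Real.exp 2 * Real.exp (2 * k) * Real.pi)
            = L ^ 2 / M ^ 2 * Real.pi * Real.exp 2 *
              (Real.exp (-(2 * (k : ℝ))) * Real.exp (2 * k)) := by ring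
          _ = _ := by rw [h3, mul_one]
    _ = ENNReal.ofReal (K.card * (L ^ 2 / M ^ 2 * Real.pi * Real.exp 2)) := by
        rw [Finset.sum_const, nsmul_eq_mul, ENNReal.ofReal_mul (Nat.cast_nonneg _),
          ENNReal.ofReal_natCast]
    _ ≤ _ := by
        apply ENNReal.ofReal_le_ofReal
        calc (K.card : ℝ) * (L ^ 2 / M ^ 2 * Real.pi * Real.exp 2)
            ≤ (3 * M) * (L ^ 2 / M ^ 2 * Real.pi * Real.exp 2) :=
              mul_le_mul_of_nonneg_right hKc (by positivity)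
          _ = 3 * Real.pi * Real.exp 2 * L ^ 2 / M := by
              field_simp

/-! ### One point -/

/-- cut-off functions for one point -/
def One (e : OnePoint ℂ) : Prop := ∃ C : ℝ, 1 ≤ C ∧ ∀ M : ℝ, C ≤ M → ∃ ψ : ℂ → ℝ,
  ContDiff ℝ 1 ψ ∧ (∀ z, 0 ≤ ψ z ∧ ψ z ≤ 1) ∧
    (∀ z : ℂ, Real.exp (-M) ≤ cd (z, 1) (vec e) → ψ z = 1) ∧
    (∀ z : ℂ, ψ z ≠ 0 → Real.exp (-(C * M)) ≤ cd (z, 1) (vec e)) ∧
    ∫⁻ z, ‖fderiv ℝ ψ z‖ₑ ^ 2 ≤ ENNReal.ofReal (C / M)

theorem norm_z1 (z : ℂ) : ‖((z, 1) : ℂ × ℂ)‖ = max ‖z‖ 1 := by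
  rw [Prod.norm_def, norm_one]

theorem one_infty : One ∞ := by
  obtain ⟨hd1, hd2, L, hL, hdL⟩ := th_deriv
  obtain ⟨C0, hC0⟩ : ∃ C0 : ℝ, C0 = 3 * Real.pi * Real.exp 2 * L ^ 2 := ⟨_, rfl⟩
  have hC00 : 0 ≤ C0 := by
    rw [hC0]
    positivity
  refine ⟨C0 + 4, by linarith, fun M hM => ?_⟩
  have hM1 : 1 ≤ M := by linarith
  have hM0 : 0 < M := by linarith
  obtain ⟨hcd, hen⟩ := energy 0 (ρ := 1) (M := 2 * M) (L := L) (s1 := 1) one_pos (by linarith) hL th
    th_cd hdL (fun s hs => by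
      rcases hs with hs | hs
      · exact hd1 s hs
      · exact hd2 s (by linarith))
  have hcdv : ∀ z : ℂ, cd (z, 1) (vec ∞) = (max ‖z‖ 1)⁻¹ := by
    intro z
    have h1 : vec ∞ = (1, 0) := rfl
    unfold cd wd
    rw [h1, norm_z1]
    have h2 : ‖((1, 0) : ℂ × ℂ)‖ = 1 := by
      rw [Prod.norm_def, norm_one, norm_zero]
      exact max_eq_left zero_le_one
    rw [h2]
    simp
  refine ⟨_, hcd, fun z => th_range _, ?_, ?_, ?_⟩
  · intro z hz
    rw [hcdv] at hz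
    have hm : 0 < max ‖z‖ 1 := lt_of_lt_of_le one_pos (le_max_right _ _)
    have h1 : max ‖z‖ 1 ≤ Real.exp M := by
      rw [Real.exp_neg] at hz
      exact (inv_le_inv₀ (Real.exp_pos _) hm).1 hz
    apply th_one
    rw [div_le_one (by linarith)]
    have h2 : Real.exp (2 * ql 0 1 z) ≤ Real.exp (2 * (2 * M)) := by
      rw [ql_exp 0 one_pos z, sub_zero, one_pow]
      have h3 : ‖z‖ ≤ Real.exp M := (le_max_left _ _).trans h1
      have h4 : (1 : ℝ) ≤ Real.exp M := (le_max_right _ _).trans h1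
      have h5 : Real.exp (2 * (2 * M)) = Real.exp M ^ 2 * Real.exp M ^ 2 := by
        rw [← pow_add, ← Real.exp_nat_mul]
        congr 1
        push_cast
        ring
      have h6 : (2 : ℝ) ≤ Real.exp M ^ 2 := by
        have : Real.exp 1 ≤ Real.exp M := Real.exp_le_exp.2 hM1
        have h7 := Real.exp_one_gt_d9
        nlinarith
      have h8 : ‖z‖ ^ 2 ≤ Real.exp M ^ 2 := pow_le_pow_left₀ (norm_nonneg _) h3 2
      have h9 : 1 ≤ Real.exp M ^ 2 := by linarith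
      rw [h5]
      nlinarith
    have h3 := Real.exp_le_exp.1 h2
    linarith
  · intro z hz
    rw [hcdv]
    have hq : ql 0 1 z / (2 * M) < 2 := by
      by_contra h
      exact hz (th_zero (not_lt.1 h))
    rw [div_lt_iff₀ (by linarith)] at hq
    have h2 : Real.exp (2 * ql 0 1 z) ≤ Real.exp (2 * (4 * M)) := Real.exp_le_exp.2 (by linarith)
    rw [ql_exp 0 one_pos z, sub_zero, one_pow] at h2
    have h3 : max ‖z‖ 1 ^ 2 ≤ Real.exp (4 * M) ^ 2 := by
      rw [← Real.exp_nat_mul]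
      have e1 : ((2 : ℕ) : ℝ) * (4 * M) = 2 * (4 * M) := by push_cast; ring
      rw [e1]
      rcases le_total ‖z‖ 1 with h | h
      · rw [max_eq_right h]
        nlinarith [sq_nonneg ‖z‖]
      · rw [max_eq_left h]
        linarith
    have hm : 0 < max ‖z‖ 1 := lt_of_lt_of_le one_pos (le_max_right _ _)
    have h4 : max ‖z‖ 1 ≤ Real.exp (4 * M) :=
      (pow_le_pow_iff_left₀ hm.le (Real.exp_pos _).le two_ne_zero).1 h3
    calc Real.exp (-((C0 + 4) * M)) ≤ Real.exp (-(4 * M)) := by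
          apply Real.exp_le_exp.2
          nlinarith
      _ = (Real.exp (4 * M))⁻¹ := Real.exp_neg _
      _ ≤ (max ‖z‖ 1)⁻¹ := (inv_le_inv₀ (Real.exp_pos _) hm).2 h4
  · refine hen.trans (ENNReal.ofReal_le_ofReal ?_)
    rw [← hC0]
    rw [div_le_div_iff₀ (by positivity) hM0]
    nlinarith

theorem one_fin (a : ℂ) : One (a : OnePoint ℂ) := by
  obtain ⟨hd1, hd2, L, hL, hdL⟩ := th_deriv
  obtain ⟨C0, hC0⟩ : ∃ C0 : ℝ, C0 = 3 * Real.pi * Real.exp 2 * L ^ 2 := ⟨_, rfl⟩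
  have hC00 : 0 ≤ C0 := by
    rw [hC0]
    positivity
  obtain ⟨A, hA⟩ : ∃ A : ℝ, A = max ‖a‖ 1 := ⟨_, rfl⟩
  have hA1 : 1 ≤ A := by
    rw [hA]
    exact le_max_right _ _
  have haA : ‖a‖ ≤ A := by
    rw [hA]
    exact le_max_left _ _
  refine ⟨C0 + 4 + A * (1 + A), by nlinarith, fun M hM => ?_⟩
  have hM1 : 1 ≤ M := by nlinarith
  have hM0 : 0 < M := by linarith
  have hMA : A * (1 + A) ≤ M := by linarith
  have hΘcd : ContDiff ℝ 1 fun s => th (-s) := th_cd.comp contDiff_neg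
  have hΘd : ∀ s, deriv (fun s => th (-s)) s = -deriv th (-s) := fun s => deriv_comp_neg th s
  obtain ⟨hcd, hen⟩ := energy a (ρ := Real.exp (-(3 * M))) (M := M) (L := L) (s1 := -2)
    (Real.exp_pos _) hM1 hL (fun s => th (-s)) hΘcd (fun s => by
      rw [hΘd, abs_neg]
      exact hdL _) (fun s hs => by
      rw [hΘd, neg_eq_zero]
      rcases hs with hs | hs
      · exact hd2 _ (by linarith)
      · exact hd1 _ (by linarith))
  have hvec : vec (a : OnePoint ℂ) = (a, 1) := rfl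
  have hcdv : ∀ z : ℂ, cd (z, 1) (vec (a : OnePoint ℂ)) = ‖z - a‖ / (max ‖z‖ 1 * A) := by
    intro z
    unfold cd wd
    rw [hvec, norm_z1, norm_z1, hA]
    simp
  refine ⟨_, hcd, fun z => th_range _, ?_, ?_, ?_⟩
  · intro z hz
    rw [hcdv] at hz
    have hm : 1 ≤ max ‖z‖ 1 := le_max_right _ _
    have h1 : Real.exp (-M) ≤ ‖z - a‖ := by
      refine hz.trans (div_le_self (norm_nonneg _) ?_)
      nlinarith
    apply th_one
    have h2 : Real.exp (2 * -M) ≤ Real.exp (2 * ql a (Real.exp (-(3 * M))) z) := by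
      rw [ql_exp a (Real.exp_pos _) z]
      have h3 : Real.exp (2 * -M) = Real.exp (-M) ^ 2 := by
        rw [← Real.exp_nat_mul]
        congr 1
      rw [h3]
      have h4 := pow_le_pow_left₀ (Real.exp_pos _).le h1 2
      nlinarith [sq_nonneg (Real.exp (-(3 * M)))]
    have h3 := Real.exp_le_exp.1 h2
    rw [← neg_div, div_le_one hM0]
    linarith
  · intro z hz
    rw [hcdv]
    have hq : -(ql a (Real.exp (-(3 * M))) z / M) < 2 := by
      by_contra h
      exact hz (th_zero (not_lt.1 h))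
    rw [← neg_div, div_lt_iff₀ hM0] at hq
    have h2 : Real.exp (-(4 * M)) < ‖z - a‖ ^ 2 + Real.exp (-(3 * M)) ^ 2 := by
      rw [← ql_exp a (Real.exp_pos _) z]
      exact Real.exp_lt_exp.2 (by linarith)
    have h3 : Real.exp (-(3 * M)) ≤ ‖z - a‖ := by
      by_contra hc
      rw [not_le] at hc
      have h4 : ‖z - a‖ ^ 2 ≤ Real.exp (-(3 * M)) ^ 2 := pow_le_pow_left₀ (norm_nonneg _) hc.le 2
      have h5 : Real.exp (-(3 * M)) ^ 2 = Real.exp (-(4 * M)) * Real.exp (-(2 * M)) := by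
        rw [← Real.exp_nat_mul, ← Real.exp_add]
        congr 1
        push_cast
        ring
      have h6 : Real.exp (-(2 * M)) ≤ 1 / 2 := by
        rw [Real.exp_neg, one_div]
        apply inv_anti₀ (by norm_num)
        have h7 := Real.add_one_le_exp (2 * M)
        linarith
      have h7 := Real.exp_pos (-(4 * M))
      nlinarith
    obtain ⟨t, ht⟩ : ∃ t, t = ‖z - a‖ := ⟨_, rfl⟩
    rw [← ht] at h3 ⊢
    have hm : max ‖z‖ 1 ≤ t + A := by
      apply max_le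
      · have := norm_sub_norm_le z a
        rw [ht]
        linarith
      · have : 0 ≤ t := by rw [ht]; exact norm_nonneg _
        linarith
    have hm0 : 0 < max ‖z‖ 1 := lt_of_lt_of_le one_pos (le_max_right _ _)
    obtain ⟨δ, hδ⟩ : ∃ δ, δ = Real.exp (-(3 * M)) := ⟨_, rfl⟩
    rw [← hδ] at h3
    have hδ0 : 0 < δ := by
      rw [hδ]
      exact Real.exp_pos _
    have hδ1 : δ ≤ 1 := by
      rw [hδ]
      exact Real.exp_le_one_iff.2 (by linarith)
    have hexp : A * (1 + A) ≤ Real.exp M := by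
      have := Real.add_one_le_exp M
      linarith
    calc Real.exp (-((C0 + 4 + A * (1 + A)) * M)) ≤ Real.exp (-(4 * M)) := by
          apply Real.exp_le_exp.2
          have : 0 ≤ A * (1 + A) := by positivity
          nlinarith
      _ = δ * Real.exp (-M) := by
          rw [hδ, ← Real.exp_add]
          congr 1
          ring
      _ ≤ δ * (A * (1 + A))⁻¹ := by
          apply mul_le_mul_of_nonneg_left _ hδ0.le
          rw [Real.exp_neg]
          exact inv_anti₀ (by positivity) hexp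
      _ ≤ t / (max ‖z‖ 1 * A) := by
          rw [← div_eq_mul_inv, div_le_div_iff₀ (by positivity) (by positivity)]
          have h4 : max ‖z‖ 1 * δ ≤ t * (1 + A) := by
            have h5 : max ‖z‖ 1 * δ ≤ (t + A) * δ := mul_le_mul_of_nonneg_right hm hδ0.le
            nlinarith
          nlinarith
  · refine hen.trans (ENNReal.ofReal_le_ofReal ?_)
    rw [← hC0]
    apply div_le_div_of_nonneg_right _ hM0.le
    have : 0 ≤ A * (1 + A) := by positivity
    linarith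

theorem one_all (e : OnePoint ℂ) : One e := by
  induction e using OnePoint.rec with
  | infty => exact one_infty
  | coe a => exact one_fin a

/-! ### Products -/

theorem cd_le_two (v w : ℂ × ℂ) : cd v w ≤ 2 := by
  unfold cd wd
  apply div_le_of_le_mul₀ (by positivity) (by norm_num)
  have h1 := norm_fst_le v
  have h2 := norm_snd_le v
  have h3 := norm_fst_le w
  have h4 := norm_snd_le w
  have h5 : ‖v.1 * w.2‖ ≤ ‖v‖ * ‖w‖ := by
    rw [norm_mul]
    exact mul_le_mul h1 h4 (norm_nonneg _) (norm_nonneg _)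
  have h6 : ‖v.2 * w.1‖ ≤ ‖v‖ * ‖w‖ := by
    rw [norm_mul]
    exact mul_le_mul h2 h3 (norm_nonneg _) (norm_nonneg _)
  have h7 := norm_sub_le (v.1 * w.2) (v.2 * w.1)
  linarith

theorem cd_nonneg (v w : ℂ × ℂ) : 0 ≤ cd v w := by
  unfold cd
  positivity

theorem om_nonneg (E : Finset (OnePoint ℂ)) (z : ℂ) : 0 ≤ om E z :=
  Finset.prod_nonneg fun _ _ => cd_nonneg _ _

theorem om_le (E : Finset (OnePoint ℂ)) (z : ℂ) : om E z ≤ 2 ^ E.card := by
  unfold om omh
  rw [← Finset.prod_const]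
  exact Finset.prod_le_prod (fun _ _ => cd_nonneg _ _) fun _ _ => cd_le_two _ _

theorem energy_mul {f g : ℂ → ℝ} (hf : ContDiff ℝ 1 f) (hg : ContDiff ℝ 1 g)
    (hf1 : ∀ z, 0 ≤ f z ∧ f z ≤ 1) (hg1 : ∀ z, 0 ≤ g z ∧ g z ≤ 1) :
    ∫⁻ z, ‖fderiv ℝ (fun z => f z * g z) z‖ₑ ^ 2 ≤
      (2 * ∫⁻ z, ‖fderiv ℝ f z‖ₑ ^ 2) + 2 * ∫⁻ z, ‖fderiv ℝ g z‖ₑ ^ 2 := by
  have hmf : Measurable fun z => ‖fderiv ℝ f z‖ₑ ^ 2 :=
    ((hf.continuous_fderiv one_ne_zero).measurable.enorm).pow_const 2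
  rw [← lintegral_const_mul' _ _ (by norm_num), ← lintegral_const_mul' _ _ (by norm_num),
    ← lintegral_add_left (hmf.const_mul 2)]
  refine lintegral_mono fun z => ?_
  have h1 : fderiv ℝ (fun z => f z * g z) z = f z • fderiv ℝ g z + g z • fderiv ℝ f z :=
    fderiv_fun_mul (hf.differentiable one_ne_zero z) (hg.differentiable one_ne_zero z)
  have h2 : ‖fderiv ℝ (fun z => f z * g z) z‖ ≤ ‖fderiv ℝ f z‖ + ‖fderiv ℝ g z‖ := by
    rw [h1]
    refine (norm_add_le _ _).trans ?_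
    rw [norm_smul, norm_smul, Real.norm_of_nonneg (hf1 z).1, Real.norm_of_nonneg (hg1 z).1]
    have h3 := mul_le_of_le_one_left (norm_nonneg (fderiv ℝ g z)) (hf1 z).2
    have h4 := mul_le_of_le_one_left (norm_nonneg (fderiv ℝ f z)) (hg1 z).2
    linarith
  have h3 : ‖fderiv ℝ (fun z => f z * g z) z‖ ^ 2 ≤
      2 * ‖fderiv ℝ f z‖ ^ 2 + 2 * ‖fderiv ℝ g z‖ ^ 2 := by
    have h4 := pow_le_pow_left₀ (norm_nonneg _) h2 2
    nlinarith [sq_nonneg (‖fderiv ℝ f z‖ - ‖fderiv ℝ g z‖)]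
  have h4 : ∀ x : ℂ →L[ℝ] ℝ, ‖x‖ₑ ^ 2 = ENNReal.ofReal (‖x‖ ^ 2) := by
    intro x
    rw [ENNReal.ofReal_pow (norm_nonneg _), ofReal_norm]
  rw [h4, h4, h4]
  refine (ENNReal.ofReal_le_ofReal h3).trans (le_of_eq ?_)
  rw [ENNReal.ofReal_add (by positivity) (by positivity), ENNReal.ofReal_mul (by norm_num),
    ENNReal.ofReal_mul (by norm_num)]
  norm_num

/-- CUT -/
theorem pf_CUT : T_CUT := by
  classical
  intro E
  induction E using Finset.induction_on with
  | empty =>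
    refine ⟨1, le_rfl, fun M hM => ⟨fun _ => 1, contDiff_const, fun _ => ⟨zero_le_one, le_rfl⟩,
      fun _ _ => rfl, fun z _ => ?_, ?_⟩⟩
    · have h1 : om ∅ z = 1 := by
        unfold om omh
        exact Finset.prod_empty
      rw [h1, Real.exp_le_one_iff]
      linarith
    · have h1 : ∀ z : ℂ, ‖fderiv ℝ (fun _ : ℂ => (1 : ℝ)) z‖ₑ ^ 2 = 0 := by
        intro z
        have h4 : ∀ x : ℂ →L[ℝ] ℝ, ‖x‖ₑ ^ 2 = ENNReal.ofReal (‖x‖ ^ 2) := by
          intro x
          rw [ENNReal.ofReal_pow (norm_nonneg _), ofReal_norm]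
        rw [h4]
        simp
      rw [lintegral_congr h1, lintegral_zero]
      exact zero_le
  | insert e E he ih =>
    obtain ⟨C2, hC2, h2⟩ := ih
    obtain ⟨C1, hC1, h1⟩ := one_all e
    refine ⟨2 * (C1 + C2) + E.card, by
      have : (0 : ℝ) ≤ E.card := Nat.cast_nonneg _
      linarith, fun M hM => ?_⟩
    have hc0 : (0 : ℝ) ≤ E.card := Nat.cast_nonneg _
    have hM1 : 1 ≤ M := by linarith
    obtain ⟨f, hf1, hf2, hf3, hf4, hf5⟩ := h1 (2 * M) (by linarith)
    obtain ⟨g, hg1, hg2, hg3, hg4, hg5⟩ := h2 (2 * M) (by linarith)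
    have hom : ∀ z, om (insert e E) z = cd (z, 1) (vec e) * om E z := by
      intro z
      unfold om omh
      exact Finset.prod_insert he
    have hexp : Real.exp (-M) * Real.exp (-M) = Real.exp (-(2 * M)) := by
      rw [← Real.exp_add]
      congr 1
      ring
    refine ⟨fun z => f z * g z, hf1.mul hg1, fun z => ⟨mul_nonneg (hf2 z).1 (hg2 z).1,
      mul_le_one₀ (hf2 z).2 (hg2 z).1 (hg2 z).2⟩, ?_, ?_, ?_⟩
    · intro z hz
      rw [hom] at hz
      have hx0 := cd_nonneg (z, 1) (vec e)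
      have hy0 := om_nonneg E z
      have hx2 := cd_le_two (z, 1) (vec e)
      have hy2 := om_le E z
      have e1 : Real.exp (-(2 * M)) ≤ cd (z, 1) (vec e) := by
        have h3 : (2 : ℝ) ^ E.card ≤ Real.exp M := by
          have h4 : (2 : ℝ) ^ E.card ≤ Real.exp 1 ^ E.card := by
            apply pow_le_pow_left₀ (by norm_num)
            have := Real.exp_one_gt_d9
            linarith
          refine h4.trans ?_
          rw [← Real.exp_nat_mul, mul_one]
          exact Real.exp_le_exp.2 (by linarith)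
        have h5 : Real.exp (-M) ≤ cd (z, 1) (vec e) * Real.exp M :=
          hz.trans (mul_le_mul_of_nonneg_left (hy2.trans h3) hx0)
        have h6 : cd (z, 1) (vec e) = cd (z, 1) (vec e) * Real.exp M * Real.exp (-M) := by
          rw [mul_assoc, ← Real.exp_add, add_neg_cancel, Real.exp_zero, mul_one]
        rw [← hexp, h6]
        exact mul_le_mul_of_nonneg_right h5 (Real.exp_pos _).le
      have e2 : Real.exp (-(2 * M)) ≤ om E z := by
        have h3 : (2 : ℝ) ≤ Real.exp M := by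
          have := Real.add_one_le_exp M
          linarith
        have h5 : Real.exp (-M) ≤ om E z * Real.exp M := by
          rw [mul_comm] at hz
          exact hz.trans (mul_le_mul_of_nonneg_left (hx2.trans h3) hy0)
        have h6 : om E z = om E z * Real.exp M * Real.exp (-M) := by
          rw [mul_assoc, ← Real.exp_add, add_neg_cancel, Real.exp_zero, mul_one]
        rw [← hexp, h6]
        exact mul_le_mul_of_nonneg_right h5 (Real.exp_pos _).le
      change f z * g z = 1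
      rw [hf3 z e1, hg3 z e2, mul_one]
    · intro z hz
      have hfz : f z ≠ 0 := fun h => hz (by change f z * g z = 0; rw [h, zero_mul])
      have hgz : g z ≠ 0 := fun h => hz (by change f z * g z = 0; rw [h, mul_zero])
      rw [hom]
      calc Real.exp (-((2 * (C1 + C2) + E.card) * M)) ≤
            Real.exp (-(C1 * (2 * M))) * Real.exp (-(C2 * (2 * M))) := by
            rw [← Real.exp_add]
            apply Real.exp_le_exp.2
            nlinarith
        _ ≤ _ := mul_le_mul (hf4 z hfz) (hg4 z hgz) (Real.exp_pos _).le (cd_nonneg _ _)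
    · refine (energy_mul hf1 hg1 hf2 hg2).trans ?_
      have h3 : 2 * ∫⁻ z, ‖fderiv ℝ f z‖ₑ ^ 2 ≤ 2 * ENNReal.ofReal (C1 / (2 * M)) := by gcongr
      have h4 : 2 * ∫⁻ z, ‖fderiv ℝ g z‖ₑ ^ 2 ≤ 2 * ENNReal.ofReal (C2 / (2 * M)) := by gcongr
      refine (add_le_add h3 h4).trans ?_
      have h5 : (2 : ℝ≥0∞) = ENNReal.ofReal 2 := by norm_num
      rw [h5, ← ENNReal.ofReal_mul (by norm_num), ← ENNReal.ofReal_mul (by norm_num),
        ← ENNReal.ofReal_add (by positivity) (by positivity)]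
      apply ENNReal.ofReal_le_ofReal
      have h6 : 2 * (C1 / (2 * M)) + 2 * (C2 / (2 * M)) = (C1 + C2) / M := by
        field_simp
      rw [h6]
      apply div_le_div_of_nonneg_right _ (by linarith)
      linarith

end Pool.Agent.H98.UDB
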